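import Mathlib

/-! Polynomial maps between abelian groups, in the sense of iterated differences. -/

namespace Pool.Agent.Helper920.SJ

variable {A B C : Type*} [AddCommGroup A] [AddCommGroup B] [AddCommGroup C]

def Poly : ℕ → (A → B) → Prop
  | 0, φ => ∀ a b, φ a = φ b
  | n + 1, φ => ∀ h, Poly n (fun a => φ (a + h) - φ a)

lemma Poly.zero (n : ℕ) : Poly n (fun _ : A => (0 : B)) := by
  induction n with
  | zero => intro a b; rfl
  | succ n ih => intro h; simpa using ih

lemma Poly.mono_succ {n : ℕ} {φ : A → B} (hφ : Poly n φ) : Poly (n + 1) φ := by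
  induction n generalizing φ with
  | zero =>
    intro h a b
    show φ (a + h) - φ a = φ (b + h) - φ b
    rw [hφ (a + h) a, hφ (b + h) b, sub_self, sub_self]
  | succ n ih => intro h; exact ih (hφ h)

lemma Poly.mono {m n : ℕ} (hmn : m ≤ n) {φ : A → B} (hφ : Poly m φ) : Poly n φ := by
  induction hmn with
  | refl => exact hφ
  | step _ ih => exact ih.mono_succ

lemma Poly.add {n : ℕ} {φ ψ : A → B} (hφ : Poly n φ) (hψ : Poly n ψ) :
    Poly n (fun a => φ a + ψ a) := by
  induction n generalizing φ ψ with
  | zero => intro a b; show φ a + ψ a = φ b + ψ b; rw [hφ a b, hψ a b]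
  | succ n ih =>
    intro h
    have := ih (hφ h) (hψ h)
    have e : (fun a => φ (a + h) + ψ (a + h) - (φ a + ψ a))
        = fun a => (φ (a + h) - φ a) + (ψ (a + h) - ψ a) := by
      funext a; abel
    show Poly n (fun a => φ (a + h) + ψ (a + h) - (φ a + ψ a))
    rw [e]; exact this

lemma Poly.comp_hom {n : ℕ} {φ : A → B} (hφ : Poly n φ) (F : B →+ C) :
    Poly n (fun a => F (φ a)) := by
  induction n generalizing φ with
  | zero => intro a b; show F (φ a) = F (φ b); rw [hφ a b]
  | succ n ih =>
    intro h
    have := ih (hφ h)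
    have e : (fun a => F (φ (a + h)) - F (φ a)) = fun a => F (φ (a + h) - φ a) := by
      funext a; rw [map_sub]
    show Poly n (fun a => F (φ (a + h)) - F (φ a))
    rw [e]; exact this

lemma Poly.bilin {B₁ B₂ : Type*} [AddCommGroup B₁] [AddCommGroup B₂] (F : B₁ →+ B₂ →+ C) :
    ∀ (k m n : ℕ) (X : A → B₁) (Y : A → B₂), m + n ≤ k → Poly m X → Poly n Y →
      Poly k (fun a => F (X a) (Y a)) := by
  intro k
  induction k with
  | zero =>
    intro m n X Y hk hX hY a b
    obtain rfl : m = 0 := by omega
    obtain rfl : n = 0 := by omega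
    show F (X a) (Y a) = F (X b) (Y b)
    rw [hX a b, hY a b]
  | succ k ih =>
    intro m n X Y hk hX hY h
    have e : (fun a => F (X (a + h)) (Y (a + h)) - F (X a) (Y a))
        = fun a => (F (X (a + h) - X a) (Y a) + F (X a) (Y (a + h) - Y a))
          + F (X (a + h) - X a) (Y (a + h) - Y a) := by
      funext a
      simp only [map_sub, AddMonoidHom.sub_apply]
      abel
    show Poly k (fun a => F (X (a + h)) (Y (a + h)) - F (X a) (Y a))
    rw [e]
    rcases m with _ | m
    · have hz : ∀ a, X (a + h) - X a = 0 := fun a => by rw [hX (a + h) a, sub_self]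
      have e2 : (fun a => (F (X (a + h) - X a) (Y a) + F (X a) (Y (a + h) - Y a))
          + F (X (a + h) - X a) (Y (a + h) - Y a)) = fun a => F (X a) (Y (a + h) - Y a) := by
        funext a; rw [hz a]; simp
      rw [e2]
      rcases n with _ | n
      · have hz2 : ∀ a, Y (a + h) - Y a = 0 := fun a => by rw [hY (a + h) a, sub_self]
        have e3 : (fun a => F (X a) (Y (a + h) - Y a)) = fun _ => 0 := by
          funext a; rw [hz2 a]; simp
        rw [e3]; exact Poly.zero _
      · exact ih 0 n X _ (by omega) hX (hY h)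
    · rcases n with _ | n
      · have hz2 : ∀ a, Y (a + h) - Y a = 0 := fun a => by rw [hY (a + h) a, sub_self]
        have e3 : (fun a => (F (X (a + h) - X a) (Y a) + F (X a) (Y (a + h) - Y a))
          + F (X (a + h) - X a) (Y (a + h) - Y a)) = fun a => F (X (a + h) - X a) (Y a) := by
          funext a; rw [hz2 a]; simp
        rw [e3]
        exact ih m 0 _ Y (by omega) (hX h) hY
      · refine Poly.add (Poly.add ?_ ?_) ?_
        · exact ih m (n + 1) _ Y (by omega) (hX h) hY
        · exact ih (m + 1) n X _ (by omega) hX (hY h)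
        · exact ih m n _ _ (by omega) (hX h) (hY h)

/-- A polynomial map that is constant off a finite set of an infinite group is constant. -/
lemma Poly.eq_const [Infinite A] {n : ℕ} : ∀ {φ : A → B} {k : B} (S : Finset A),
    Poly n φ → (∀ a, a ∉ S → φ a = k) → ∀ a, φ a = k := by
  classical
  induction n with
  | zero =>
    intro φ k S hφ hk a
    obtain ⟨a0, ha0⟩ := Infinite.exists_notMem_finset S
    rw [hφ a a0, hk a0 ha0]
  | succ n ih =>
    intro φ k S hφ hk a
    obtain ⟨a0, ha0⟩ := Infinite.exists_notMem_finset S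
    have := ih (φ := fun x => φ (x + (a - a0)) - φ x) (k := 0)
      (S ∪ S.image (fun x => x - (a - a0))) (hφ (a - a0)) (by
        intro x hx
        rw [Finset.notMem_union] at hx
        have h1 := hk x hx.1
        have h2 : x + (a - a0) ∉ S := by
          intro hc
          exact hx.2 (Finset.mem_image.mpr ⟨_, hc, by abel⟩)
        rw [hk _ h2, h1, sub_self]) a0
    have e : a0 + (a - a0) = a := by abel
    simp only [e] at this
    rw [sub_eq_zero.mp this, hk a0 ha0]

end Pool.Agent.Helper920.SJ
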