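import Mathlib
import Pool.Agent.Helper920.SJ.Poly

set_option autoImplicit false

/-! Unital quadratic Jordan algebras, their Steinberg groups, and centrally closed groups. -/

namespace Pool.Agent.Helper920.SJ

universe u v

/-- `U_{a,c} = U_{a+c} - U_a - U_c`, the polarisation of the quadratic operators. -/
def polar {J : Type u} [AddCommGroup J] (U : J → J →+ J) (a c : J) : J →+ J :=
  U (a + c) - U a - U c

/-- A unital quadratic Jordan algebra (the identities of McCrimmon over the integers):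
`U` is quadratic, `U_1 = id`, `V_{a,b} U_a = U_a V_{b,a}` and `U_{U_a b} = U_a U_b U_a`,
where `V_{a,b} x = U_{a,x} b`. -/
structure QJ (J : Type u) [AddCommGroup J] where
  U : J → J →+ J
  one : J
  U_zsmul : ∀ (n : ℤ) (a x : J), U (n • a) x = (n ^ 2) • U a x
  polar_add : ∀ a b c x : J, polar U (a + b) c x = polar U a c x + polar U b c x
  U_one : ∀ x : J, U one x = x
  V_U : ∀ a b x : J, polar U a (U a x) b = U a (polar U b x a)
  U_U : ∀ a b x : J, U (U a b) x = U a (U b (U a x))

variable {J : Type u} [AddCommGroup J]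

/-- Division Jordan algebra: nonzero, and `U_b` is bijective for every `b ≠ 0`. -/
def QJ.IsDivision (Q : QJ J) : Prop :=
  Q.one ≠ 0 ∧ ∀ b : J, b ≠ 0 → Function.Bijective (Q.U b)

/-- The inverse `b⁻¹ = U_b⁻¹ b` (of an invertible element `b`). -/
noncomputable def QJ.inv (Q : QJ J) (b : J) : J := Function.invFun (Q.U b) b

/-- The word `w_b = x₋(b⁻¹) x₊(b) x₋(b⁻¹)` in the free group on the symbols `x_σ(a)`;
`true` stands for `+` and `false` for `-`. -/
noncomputable def QJ.wWord (Q : QJ J) (b : J) : FreeGroup (Bool × J) :=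
  FreeGroup.of (false, Q.inv b) * FreeGroup.of (true, b) * FreeGroup.of (false, Q.inv b)

/-- The defining relators of the Steinberg group of a Jordan algebra. -/
def QJ.rels (Q : QJ J) : Set (FreeGroup (Bool × J)) :=
  {r | (∃ (σ : Bool) (a b : J), r = FreeGroup.of (σ, a) * FreeGroup.of (σ, b) *
      (FreeGroup.of (σ, a + b))⁻¹) ∨
    (∃ a b : J, b ≠ 0 ∧ r = Q.wWord b * FreeGroup.of (false, a) * (Q.wWord b)⁻¹ *
      (FreeGroup.of (true, Q.U b a))⁻¹)}

/-- The Steinberg group `St(J)`. -/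
abbrev QJ.St (Q : QJ J) : Type u := PresentedGroup Q.rels

/-- `G` is centrally closed: `G` is perfect and every central extension of `G` splits. -/
def CentrallyClosed (G : Type u) [Group G] : Prop :=
  commutator G = ⊤ ∧ ∀ (E : Type v) [Group E] (p : E →* G), Function.Surjective p →
    p.ker ≤ Subgroup.center E → ∃ s : G →* E, p.comp s = MonoidHom.id G

/-- `T` lies in the centroid of the quadratic Jordan algebra:
`T U_a = U_a T`, `U_{T a} = T² U_a` and `U_{T a, b} = T U_{a, b}`. -/
def QJ.InCentroid (Q : QJ J) (T : J →+ J) : Prop :=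
  (∀ a x : J, T (Q.U a x) = Q.U a (T x)) ∧ (∀ a x : J, Q.U (T a) x = T (T (Q.U a x))) ∧
    ∀ a b x : J, polar Q.U (T a) b x = T (polar Q.U a b x)

/-- The Jordan algebra is isomorphic to `D⁺` for a division ring `D`: `U_a x = a x a`. -/
def QJ.IsPlus (Q : QJ J) : Prop :=
  ∃ (D : Type u) (_ : DivisionRing D) (e : J ≃+ D), e Q.one = 1 ∧
    ∀ a x : J, e (Q.U a x) = e a * e x * e a

/-! ### Central extensions -/

open scoped commutatorElement

section ext

variable {G : Type u} [Group G] {E : Type v} [Group E] (p : E →* G)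
  (hp : Function.Surjective p) (hker : p.ker ≤ Subgroup.center E)

include hker in
lemma comm_indep {e e' f f' : E} (he : p e = p e') (hf : p f = p f') :
    ⁅e, f⁆ = ⁅e', f'⁆ := by
  have h1 : e * e'⁻¹ ∈ Subgroup.center E := hker (by
    rw [MonoidHom.mem_ker, map_mul, map_inv, he, mul_inv_cancel])
  have h2 : f * f'⁻¹ ∈ Subgroup.center E := hker (by
    rw [MonoidHom.mem_ker, map_mul, map_inv, hf, mul_inv_cancel])
  rw [Subgroup.mem_center_iff] at h1 h2
  obtain ⟨z, rfl⟩ : ∃ z, e = z * e' := ⟨e * e'⁻¹, by group⟩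
  obtain ⟨y, rfl⟩ : ∃ y, f = y * f' := ⟨f * f'⁻¹, by group⟩
  have hz : ∀ g, g * z = z * g := by
    intro g; have := h1 g; simpa using this
  have hy : ∀ g, g * y = y * g := by
    intro g; have := h2 g; simpa using this
  simp only [commutatorElement_def, mul_inv_rev]
  have e1 : z * e' * (y * f') * (e'⁻¹ * z⁻¹) * (f'⁻¹ * y⁻¹)
      = (z * (e' * y) * f' * e'⁻¹ * z⁻¹) * (f'⁻¹ * y⁻¹) := by group
  rw [e1, hy e']
  have e2 : z * (y * e') * f' * e'⁻¹ * z⁻¹ * (f'⁻¹ * y⁻¹)
      = (z * (y * e' * f' * e'⁻¹)) * z⁻¹ * (f'⁻¹ * y⁻¹) := by group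
  rw [e2, ← hz]
  have e3 : y * e' * f' * e'⁻¹ * z * z⁻¹ * (f'⁻¹ * y⁻¹)
      = (y * (e' * f' * e'⁻¹ * f'⁻¹)) * y⁻¹ := by group
  rw [e3, ← hy]
  group

include hp hker in
/-- A lift of a central element of a perfect group to a central extension is central. -/
lemma center_lift (hG : commutator G = ⊤) {e : E} (he : p e ∈ Subgroup.center G) :
    e ∈ Subgroup.center E := by
  have hc : ∀ f : E, ⁅e, f⁆ ∈ Subgroup.center E := by
    intro f
    apply hker
    rw [MonoidHom.mem_ker, map_commutatorElement, commutatorElement_eq_one_iff_mul_comm]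
    exact ((Subgroup.mem_center_iff.mp he) (p f)).symm
  let φ : E →* Subgroup.center E := MonoidHom.mk' (fun f => ⟨⁅e, f⁆, hc f⟩) (by
    intro f f'
    apply Subtype.ext
    show ⁅e, f * f'⁆ = ⁅e, f⁆ * ⁅e, f'⁆
    have h1 := (Subgroup.mem_center_iff.mp (hc f')) f
    simp only [commutatorElement_def] at h1 ⊢
    calc e * (f * f') * e⁻¹ * (f * f')⁻¹
        = e * f * e⁻¹ * (e * f' * e⁻¹ * f'⁻¹) * f⁻¹ := by group
      _ = e * f * e⁻¹ * f⁻¹ * (f * (e * f' * e⁻¹ * f'⁻¹)) * f⁻¹ := by group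
      _ = e * f * e⁻¹ * f⁻¹ * ((e * f' * e⁻¹ * f'⁻¹) * f) * f⁻¹ := by rw [h1]
      _ = e * f * e⁻¹ * f⁻¹ * (e * f' * e⁻¹ * f'⁻¹) := by group)
  have h2 : commutator E ≤ φ.ker := by
    rw [commutator_def, Subgroup.commutator_le]
    intro a _ b _
    rw [MonoidHom.mem_ker, map_commutatorElement, commutatorElement_eq_one_iff_mul_comm]
    exact Subtype.ext ((Subgroup.mem_center_iff.mp (φ b).2) _)
  have h3 : p.ker ≤ φ.ker := by
    intro z hz
    rw [MonoidHom.mem_ker]
    apply Subtype.ext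
    show ⁅e, z⁆ = 1
    rw [commutatorElement_eq_one_iff_mul_comm]
    exact (Subgroup.mem_center_iff.mp (hker hz)) e
  have h4 : ∀ f : E, f ∈ φ.ker := by
    intro f
    have h5 : p f ∈ (commutator E).map p := by
      have : (commutator E).map p = commutator G := by
        rw [commutator_def, commutator_def, Subgroup.map_commutator,
          Subgroup.map_top_of_surjective p hp]
      rw [this, hG]; trivial
    obtain ⟨c, hc1, hc2⟩ := h5
    have h6 : c⁻¹ * f ∈ p.ker := by
      rw [MonoidHom.mem_ker, map_mul, map_inv, hc2, inv_mul_cancel]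
    have h7 := φ.ker.mul_mem (h2 hc1) (h3 h6)
    rwa [mul_inv_cancel_left] at h7
  rw [Subgroup.mem_center_iff]
  intro f
  have h8 : φ f = 1 := h4 f
  have h9 : ⁅e, f⁆ = 1 := congrArg Subtype.val h8
  exact (commutatorElement_eq_one_iff_mul_comm.mp h9).symm

end ext

end Pool.Agent.Helper920.SJ
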