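import Mathlib
import Pool.Agent.Helper920.SJ.Defs

set_option autoImplicit false

/-! Central extensions of Steinberg groups of division Jordan algebras: core lemmas. -/

namespace Pool.Agent.Helper920.SJ

open scoped commutatorElement

universe u v

variable {J : Type u} [AddCommGroup J]

lemma QJ.U_zero (Q : QJ J) (x : J) : Q.U 0 x = 0 := by
  have := Q.U_zsmul 0 0 x
  simpa using this

lemma QJ.U_neg (Q : QJ J) (a x : J) : Q.U (-a) x = Q.U a x := by
  have := Q.U_zsmul (-1) a x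
  simpa using this

lemma QJ.poly_U (Q : QJ J) (x : J) : Poly 2 (fun b => Q.U b x) := by
  intro h k a b
  show (Q.U (a + k + h) x - Q.U (a + k) x) - (Q.U (a + h) x - Q.U a x) =
    (Q.U (b + k + h) x - Q.U (b + k) x) - (Q.U (b + h) x - Q.U b x)
  have key : ∀ c : J, (Q.U (c + k + h) x - Q.U (c + k) x) - (Q.U (c + h) x - Q.U c x) =
      Q.U (k + h) x - Q.U k x - Q.U h x := by
    intro c
    have h1 := Q.polar_add c k h x
    simp only [polar, AddMonoidHom.sub_apply] at h1
    rw [sub_eq_iff_eq_add] at h1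
    rw [h1]
    abel
  rw [key a, key b]

lemma QJ.inv_spec (Q : QJ J) (hQ : Q.IsDivision) {b : J} (hb : b ≠ 0) :
    Q.U b (Q.inv b) = b := by
  obtain ⟨c, hc⟩ := (hQ.2 b hb).2 b
  exact Function.invFun_eq ⟨c, hc⟩

lemma QJ.inv_neg (Q : QJ J) (hQ : Q.IsDivision) {b : J} (hb : b ≠ 0) :
    Q.inv (-b) = -Q.inv b := by
  apply (hQ.2 b hb).1
  have h1 := Q.inv_spec hQ (neg_ne_zero.mpr hb)
  rw [Q.U_neg] at h1
  rw [h1, map_neg, Q.inv_spec hQ hb]

/-- internal: a group with root groups satisfying the Steinberg relations -/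
structure Dat (Q : QJ J) (G : Type u) [Group G] where
  x : Bool → J → G
  hx : ∀ (σ : Bool) (a b : J), x σ (a + b) = x σ a * x σ b
  hw : ∀ b : J, b ≠ 0 → ∀ a : J,
    (x false (Q.inv b) * x true b * x false (Q.inv b)) * x false a *
      (x false (Q.inv b) * x true b * x false (Q.inv b))⁻¹ = x true (Q.U b a)
  gen : Subgroup.closure (Set.range fun q : Bool × J => x q.1 q.2) = ⊤

section dat

variable {Q : QJ J} (hQ : Q.IsDivision) {G : Type u} [Group G] (D : Dat Q G)

noncomputable def Dat.W (b : J) : G := D.x false (Q.inv b) * D.x true b * D.x false (Q.inv b)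

lemma Dat.W_conj {b : J} (hb : b ≠ 0) (a : J) :
    D.W b * D.x false a * (D.W b)⁻¹ = D.x true (Q.U b a) := D.hw b hb a

lemma Dat.x_zero (σ : Bool) : D.x σ 0 = 1 := by
  have := D.hx σ 0 0
  rw [add_zero] at this
  exact (mul_eq_left.mp this.symm)

lemma Dat.x_neg (σ : Bool) (a : J) : D.x σ (-a) = (D.x σ a)⁻¹ := by
  have := D.hx σ (-a) a
  rw [neg_add_cancel, D.x_zero] at this
  exact eq_inv_of_mul_eq_one_left this.symm

lemma Dat.x_sub (σ : Bool) (a b : J) : D.x σ (a - b) = D.x σ a * (D.x σ b)⁻¹ := by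
  rw [sub_eq_add_neg, D.hx, D.x_neg]

include hQ in
lemma Dat.W_neg {b : J} (hb : b ≠ 0) : D.W (-b) = (D.W b)⁻¹ := by
  simp only [Dat.W, Q.inv_neg hQ hb, D.x_neg]
  group

include hQ in
lemma Dat.W_conj' {b : J} (hb : b ≠ 0) (a : J) :
    D.W b * D.x true (Q.U b a) * (D.W b)⁻¹ = D.x false a := by
  have h1 := D.W_conj (neg_ne_zero.mpr hb) a
  rw [D.W_neg hQ hb, Q.U_neg, inv_inv] at h1
  rw [← h1]
  group

noncomputable def Dat.H (b : J) : G := D.W b * (D.W Q.one)⁻¹

include hQ in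
lemma Dat.one_conj (a : J) : (D.W Q.one)⁻¹ * D.x true a * D.W Q.one = D.x false a := by
  have h1 := D.W_conj hQ.1 a
  rw [Q.U_one] at h1
  rw [← h1]
  group

include hQ in
lemma Dat.H_pos {b : J} (hb : b ≠ 0) (a : J) :
    D.H b * D.x true a * (D.H b)⁻¹ = D.x true (Q.U b a) := by
  have h2 : D.H b * D.x true a * (D.H b)⁻¹ =
      D.W b * ((D.W Q.one)⁻¹ * D.x true a * D.W Q.one) * (D.W b)⁻¹ := by
    simp only [Dat.H]
    group
  rw [h2, D.one_conj hQ, D.W_conj hb]

include hQ in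
lemma Dat.H_neg {b : J} (hb : b ≠ 0) (a : J) :
    D.H b * D.x false (Q.U b a) * (D.H b)⁻¹ = D.x false a := by
  have h2 : D.H b * D.x false (Q.U b a) * (D.H b)⁻¹ =
      D.W b * ((D.W Q.one)⁻¹ * D.x false (Q.U b a) * D.W Q.one) * (D.W b)⁻¹ := by
    simp only [Dat.H]
    group
  have h3 : (D.W Q.one)⁻¹ * D.x false (Q.U b a) * D.W Q.one = D.x true (Q.U b a) := by
    have h4 := D.W_conj' hQ hQ.1 (Q.U b a)
    rw [Q.U_one] at h4
    rw [← h4]
    group
  rw [h2, h3, D.W_conj' hQ hb]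

/-- `g` acts on the two root groups by `A` and `A'`. -/
def Dat.Acts (g : G) (A A' : J → J) : Prop :=
  (∀ a, g * D.x true a * g⁻¹ = D.x true (A a)) ∧ ∀ a, g * D.x false a * g⁻¹ = D.x false (A' a)

lemma Dat.Acts.mul {g g' : G} {A A' B B' : J → J} (h : D.Acts g A A') (h' : D.Acts g' B B') :
    D.Acts (g * g') (A ∘ B) (A' ∘ B') := by
  constructor
  · intro a
    have := h.1 (B a)
    rw [← h'.1] at this
    rw [Function.comp_apply, ← this]
    group
  · intro a
    have := h.2 (B' a)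
    rw [← h'.2] at this
    rw [Function.comp_apply, ← this]
    group

lemma Dat.Acts.inv {g : G} {A A' B B' : J → J} (h : D.Acts g A A')
    (hB : ∀ a, A (B a) = a) (hB' : ∀ a, A' (B' a) = a) :
    D.Acts g⁻¹ B B' := by
  constructor
  · intro a
    have := h.1 (B a)
    rw [hB] at this
    rw [← this]
    group
  · intro a
    have := h.2 (B' a)
    rw [hB'] at this
    rw [← this]
    group

lemma Dat.Acts.congr {g : G} {A A' B B' : J → J} (h : D.Acts g A A')
    (hB : ∀ a, A a = B a) (hB' : ∀ a, A' a = B' a) : D.Acts g B B' := by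
  obtain rfl : A = B := funext hB
  obtain rfl : A' = B' := funext hB'
  exact h

/-- If `g` and `g'` act by commuting operators, they commute modulo the centre. -/
lemma Dat.comm_center {g g' : G} {A A' B B' : J → J} (h : D.Acts g A A') (h' : D.Acts g' B B')
    (h1 : ∀ a, A (B a) = B (A a)) (h2 : ∀ a, A' (B' a) = B' (A' a)) :
    g' * g * g'⁻¹ * g⁻¹ ∈ Subgroup.center G := by
  -- `z = (g g')⁻¹ (g' g)` commutes with the generators
  have hz : (g * g')⁻¹ * (g' * g) ∈ Subgroup.center G := by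
    have h3 : Subgroup.closure (Set.range fun q : Bool × J => D.x q.1 q.2) ≤
        Subgroup.centralizer {(g * g')⁻¹ * (g' * g)} := by
      rw [Subgroup.closure_le]
      rintro _ ⟨⟨σ, a⟩, rfl⟩
      rw [SetLike.mem_coe, Subgroup.mem_centralizer_singleton_iff]
      have e1 : (g' * g) * D.x σ a * (g' * g)⁻¹ = (g * g') * D.x σ a * (g * g')⁻¹ := by
        cases σ
        · rw [(h.mul D h').2, (h'.mul D h).2, Function.comp_apply, Function.comp_apply, h2]
        · rw [(h.mul D h').1, (h'.mul D h).1, Function.comp_apply, Function.comp_apply, h1]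
      show D.x σ a * ((g * g')⁻¹ * (g' * g)) = (g * g')⁻¹ * (g' * g) * D.x σ a
      calc D.x σ a * ((g * g')⁻¹ * (g' * g))
          = (g * g')⁻¹ * ((g * g') * D.x σ a * (g * g')⁻¹) * (g' * g) := by group
        _ = (g * g')⁻¹ * ((g' * g) * D.x σ a * (g' * g)⁻¹) * (g' * g) := by rw [e1]
        _ = (g * g')⁻¹ * (g' * g) * D.x σ a := by group
    rw [D.gen] at h3
    rw [Subgroup.mem_center_iff]
    intro y
    have h4 := h3 (Subgroup.mem_top y)
    rw [Subgroup.mem_centralizer_singleton_iff] at h4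
    exact h4
  have h5 := (Subgroup.mem_center_iff.mp hz) (g' * g)⁻¹
  have h6 : g' * g * g'⁻¹ * g⁻¹ = (g * g')⁻¹ * (g' * g) := by
    have h7 := (Subgroup.mem_center_iff.mp hz) (g * g')
    calc g' * g * g'⁻¹ * g⁻¹ = (g * g') * ((g * g')⁻¹ * (g' * g)) * (g * g')⁻¹ := by group
      _ = (g * g')⁻¹ * (g' * g) * (g * g') * (g * g')⁻¹ := by rw [h7]
      _ = (g * g')⁻¹ * (g' * g) := by group
  rw [h6]
  exact hz

end dat

end Pool.Agent.Helper920.SJ
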