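import Mathlib
import Pool.Agent.Helper920.SJ.Core

set_option autoImplicit false

/-! Central extensions of Steinberg groups of division Jordan algebras: lifting root groups. -/

namespace Pool.Agent.Helper920.SJ

open scoped commutatorElement

universe u v

variable {J : Type u} [AddCommGroup J]

lemma commutator_mul_right {E : Type v} [Group E] (e f f' : E) :
    ⁅e, f * f'⁆ = ⁅e, f⁆ * (f * ⁅e, f'⁆ * f⁻¹) := by
  simp only [commutatorElement_def]
  group

lemma commutator_mul_left {E : Type v} [Group E] (e e' f : E) :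
    ⁅e * e', f⁆ = e * ⁅e', f⁆ * e⁻¹ * ⁅e, f⁆ := by
  simp only [commutatorElement_def]
  group

section

variable {G : Type u} [Group G] {E : Type v} [Group E] (p : E →* G)
  (hp : Function.Surjective p) (hker : p.ker ≤ Subgroup.center E)

/-- the commutator of lifts -/
noncomputable def cm (g k : G) : E := ⁅Function.surjInv hp g, Function.surjInv hp k⁆

include hker in
lemma cm_eq {e f : E} {g k : G} (he : p e = g) (hf : p f = k) : ⁅e, f⁆ = cm p hp g k :=
  comm_indep p hker (by rw [he, Function.surjInv_eq hp]) (by rw [hf, Function.surjInv_eq hp])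

lemma p_cm (g k : G) : p (cm p hp g k) = ⁅g, k⁆ := by
  rw [cm, map_commutatorElement, Function.surjInv_eq hp, Function.surjInv_eq hp]

include hker in
lemma conj_cm (e : E) (g k : G) : e * cm p hp g k * e⁻¹ =
    cm p hp (p e * g * (p e)⁻¹) (p e * k * (p e)⁻¹) := by
  have h1 : e * cm p hp g k * e⁻¹ =
      ⁅e * Function.surjInv hp g * e⁻¹, e * Function.surjInv hp k * e⁻¹⁆ := by
    simp only [cm, commutatorElement_def]
    group
  rw [h1]
  apply cm_eq p hp hker
  · simp [Function.surjInv_eq hp]
  · simp [Function.surjInv_eq hp]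

include hker in
lemma comm_mem_center {e f : E} (h : p e * p f = p f * p e) : ⁅e, f⁆ ∈ Subgroup.center E := by
  apply hker
  rw [MonoidHom.mem_ker, map_commutatorElement, commutatorElement_eq_one_iff_mul_comm]
  exact h

include hker in
/-- `cm` only depends on the first argument modulo the centre. -/
lemma cm_mod_center (hG : commutator G = ⊤) {g g' : G} (h : g' * g⁻¹ ∈ Subgroup.center G)
    (k : G) : cm p hp g' k = cm p hp g k := by
  obtain ⟨z, hz⟩ := hp (g' * g⁻¹)
  have hzc : z ∈ Subgroup.center E := center_lift p hp hker hG (by rw [hz]; exact h)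
  obtain ⟨e, he⟩ := hp g
  obtain ⟨f, hf⟩ := hp k
  rw [← cm_eq p hp hker he hf,
    ← cm_eq p hp hker (e := z * e) (f := f) (by rw [map_mul, hz, he]; group) hf,
    commutator_mul_left]
  have h1 : ⁅z, f⁆ = 1 := by
    rw [commutatorElement_eq_one_iff_mul_comm]
    exact ((Subgroup.mem_center_iff.mp hzc) f).symm
  rw [h1, mul_one, ← (Subgroup.mem_center_iff.mp hzc) ⁅e, f⁆]
  group

end

section dat

variable {Q : QJ J} (hQ : Q.IsDivision) {G : Type u} [Group G] (D : Dat Q G)
  {E : Type v} [Group E] (p : E →* G) (hp : Function.Surjective p)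
  (hker : p.ker ≤ Subgroup.center E)

lemma Dat.x_comm (σ : Bool) (a b : J) : D.x σ a * D.x σ b = D.x σ b * D.x σ a := by
  rw [← D.hx, ← D.hx, add_comm]

open scoped IsMulCommutative in
include hQ hp hker in
/-- The full preimage of the root group `U₊` in a central extension is commutative. -/
lemma Dat.lifts_commute [Infinite J] {e e' : E} {a b : J} (he : p e = D.x true a)
    (he' : p e' = D.x true b) : e * e' = e' * e := by
  have hcen : ∀ a b, cm p hp (D.x true a) (D.x true b) ∈ Subgroup.center E := by
    intro a b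
    apply comm_mem_center p hker
    rw [Function.surjInv_eq hp, Function.surjInv_eq hp]
    exact D.x_comm true a b
  have hr : ∀ a b c, cm p hp (D.x true a) (D.x true (b + c)) =
      cm p hp (D.x true a) (D.x true b) * cm p hp (D.x true a) (D.x true c) := by
    intro a b c
    obtain ⟨f, hf⟩ := hp (D.x true a)
    obtain ⟨g, hg⟩ := hp (D.x true b)
    obtain ⟨k, hk⟩ := hp (D.x true c)
    rw [← cm_eq p hp hker hf hg, ← cm_eq p hp hker hf hk,
      ← cm_eq p hp hker (f := g * k) hf (by rw [map_mul, hg, hk, D.hx]), commutator_mul_right]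
    have h1 : ⁅f, k⁆ ∈ Subgroup.center E := by
      rw [cm_eq p hp hker hf hk]; exact hcen a c
    rw [(Subgroup.mem_center_iff.mp h1) g]
    group
  have hl : ∀ a b c, cm p hp (D.x true (a + b)) (D.x true c) =
      cm p hp (D.x true a) (D.x true c) * cm p hp (D.x true b) (D.x true c) := by
    intro a b c
    obtain ⟨f, hf⟩ := hp (D.x true a)
    obtain ⟨g, hg⟩ := hp (D.x true b)
    obtain ⟨k, hk⟩ := hp (D.x true c)
    rw [← cm_eq p hp hker hf hk, ← cm_eq p hp hker hg hk,
      ← cm_eq p hp hker (e := f * g) (by rw [map_mul, hf, hg, D.hx]) hk, commutator_mul_left]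
    have h1 : ⁅g, k⁆ ∈ Subgroup.center E := by
      rw [cm_eq p hp hker hg hk]; exact hcen b c
    rw [(Subgroup.mem_center_iff.mp h1) f, mul_assoc ⁅g, k⁆, mul_inv_cancel, mul_one,
      ← (Subgroup.mem_center_iff.mp h1)]
  let F : J →+ J →+ Additive (Subgroup.center E) :=
    AddMonoidHom.mk' (fun a => AddMonoidHom.mk'
      (fun b => Additive.ofMul ⟨cm p hp (D.x true a) (D.x true b), hcen a b⟩)
      (fun b c => congrArg Additive.ofMul (Subtype.ext (hr a b c))))
      (fun a b => AddMonoidHom.ext fun c => congrArg Additive.ofMul (Subtype.ext (hl a b c)))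
  have hF : ∀ a b, F a b = Additive.ofMul ⟨cm p hp (D.x true a) (D.x true b), hcen a b⟩ :=
    fun _ _ => rfl
  have hinv : ∀ t, t ≠ 0 → ∀ a b, F (Q.U t a) (Q.U t b) = F a b := by
    intro t ht a b
    rw [hF, hF]
    apply congrArg Additive.ofMul
    apply Subtype.ext
    show cm p hp (D.x true (Q.U t a)) (D.x true (Q.U t b)) =
      cm p hp (D.x true a) (D.x true b)
    obtain ⟨f, hf⟩ := hp (D.H t)
    have h1 := conj_cm p hp hker f (D.x true a) (D.x true b)
    rw [hf, D.H_pos hQ ht, D.H_pos hQ ht] at h1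
    rw [← h1, (Subgroup.mem_center_iff.mp (hcen a b)) f]
    group
  have hzero : ∀ a b, F a b = 0 := by
    intro a b
    have hP : Poly 4 (fun t => F (Q.U t a) (Q.U t b)) :=
      Poly.bilin F 4 2 2 (fun t => Q.U t a) (fun t => Q.U t b) (by norm_num)
        (Q.poly_U a) (Q.poly_U b)
    have h1 := hP.eq_const (k := F a b) {0} (by
      intro t ht
      rw [Finset.mem_singleton] at ht
      exact hinv t ht a b) 0
    have h2 : F (Q.U 0 a) (Q.U 0 b) = 0 := by
      rw [Q.U_zero, Q.U_zero, map_zero]
    rw [← h1]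
    exact h2
  have h3 : ⁅e, e'⁆ = 1 := by
    rw [cm_eq p hp hker he he']
    have h4 := hzero a b
    rw [hF] at h4
    exact congrArg Subtype.val (congrArg Additive.toMul h4)
  exact commutatorElement_eq_one_iff_mul_comm.mp h3

/-- `s` is the section of `U₊` attached to `g`, which acts by `A` on `U₊`. -/
def IsSec (g : G) (A : J → J) (s : J → E) : Prop :=
  ∀ c, s (A c - c) = cm p hp g (D.x true c)

include hQ hker in
lemma exists_sec [Infinite J] {g : G} {A A' : J → J} (hg : D.Acts g A A')
    (hA : Function.Bijective fun c => A c - c) (hadd : ∀ a b, A (a + b) = A a + A b) :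
    ∃ s : J → E, IsSec D p hp g A s ∧ (∀ a, p (s a) = D.x true a) ∧
      ∀ a b, s (a + b) = s a * s b := by
  let B : J → J := fun a => Function.invFun (fun c => A c - c) a
  have hB : ∀ a, A (B a) - B a = a := fun a => Function.invFun_eq (hA.2 a)
  have hB' : ∀ c, B (A c - c) = c := fun c => Function.leftInverse_invFun hA.1 c
  refine ⟨fun a => cm p hp g (D.x true (B a)), fun c => by
    show cm p hp g (D.x true (B (A c - c))) = _
    rw [hB'], fun a => ?_, fun a b => ?_⟩
  · show p (cm p hp g (D.x true (B a))) = _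
    rw [p_cm, commutatorElement_def, hg.1, ← D.x_sub, hB]
  · show cm p hp g (D.x true (B (a + b))) =
      cm p hp g (D.x true (B a)) * cm p hp g (D.x true (B b))
    have h1 : B (a + b) = B a + B b := by
      apply hA.1
      show A (B (a + b)) - B (a + b) = A (B a + B b) - (B a + B b)
      rw [hB, hadd]
      have h2 := hB a
      have h3 := hB b
      calc a + b = (A (B a) - B a) + (A (B b) - B b) := by rw [h2, h3]
        _ = A (B a) + A (B b) - (B a + B b) := by abel
    rw [h1]
    obtain ⟨f, hf⟩ := hp g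
    obtain ⟨y, hy⟩ := hp (D.x true (B a))
    obtain ⟨k, hk⟩ := hp (D.x true (B b))
    rw [← cm_eq p hp hker hf hy, ← cm_eq p hp hker hf hk,
      ← cm_eq p hp hker (f := y * k) hf (by rw [map_mul, hy, hk, D.hx]), commutator_mul_right]
    have h4 : p ⁅f, k⁆ = D.x true b := by
      rw [map_commutatorElement, hf, hk, commutatorElement_def, hg.1, ← D.x_sub, hB]
    rw [D.lifts_commute hQ p hp hker hy h4]
    group

include hker in
lemma sec_conj {g g' : G} {A A₁ : J → J} {s s' : J → E} (hs : IsSec D p hp g A s)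
    (hs' : IsSec D p hp g' A₁ s') (hA : Function.Surjective fun c => A c - c)
    {e : E} {B B' : J → J} (hk : D.Acts (p e) B B')
    (hg : ∀ k, cm p hp (p e * g * (p e)⁻¹) k = cm p hp g' k)
    (hBsub : ∀ a b, B (a - b) = B a - B b)
    (hcomm : ∀ a, A₁ (B a) = B (A a)) (a : J) : e * s a * e⁻¹ = s' (B a) := by
  obtain ⟨c, rfl⟩ := hA a
  show e * s (A c - c) * e⁻¹ = s' (B (A c - c))
  rw [hs, conj_cm p hp hker, hk.1, hg, hBsub, ← hcomm, hs']

include hker in
/-- Commuting (modulo the centre) regular elements give the same section. -/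
lemma sec_unique (hG : commutator G = ⊤) {g g' : G} {A A' B B' : J → J} {s s' : J → E}
    (hg : D.Acts g A A') (hg' : D.Acts g' B B')
    (hs : IsSec D p hp g A s) (hs' : IsSec D p hp g' B s')
    (hps : ∀ a b, s (a + b) = s a * s b) (hpx : ∀ a, p (s a) = D.x true a)
    (hA : Function.Surjective fun c => A c - c)
    (hB : Function.Surjective fun c => B c - c)
    (hBsub : ∀ a b, B (a - b) = B a - B b)
    (hc1 : ∀ a, A (B a) = B (A a)) (hc2 : ∀ a, A' (B' a) = B' (A' a)) (a : J) :
    s a = s' a := by
  obtain ⟨c, rfl⟩ := hB a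
  show s (B c - c) = s' (B c - c)
  obtain ⟨e, he⟩ := hp g'
  have h1 : e * s c * e⁻¹ = s (B c) := by
    refine sec_conj D p hp hker hs hs hA (B' := B') (by rw [he]; exact hg') ?_ hBsub hc1 c
    intro k
    apply cm_mod_center p hp hker hG
    rw [he]
    exact D.comm_center hg hg' hc1 hc2
  have h2 : s (B c) = s (B c - c) * s c := by
    rw [← hps, sub_add_cancel]
  have h3 : s (B c - c) = ⁅e, s c⁆ := by
    rw [commutatorElement_def, h1, h2]
    group
  rw [h3, hs' c]
  exact cm_eq p hp hker he (hpx c)

end dat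

end Pool.Agent.Helper920.SJ
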